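import Mathlib
import Pool.Agent.Y611.S.Fin

set_option autoImplicit false

/-!
# The maximal gain of non-adaptive randomization for convex symmetric classes is attained

`detErr`, `ranErr` and `rate` are the notions of the problem file (see
`Pool/Agent/Helper228/Gain/Defs.lean`). `BX` is the Banach space of the bounded functions on the
discrete space `ℕ × ℕ`.
-/

open scoped ENNReal
open MeasureTheory Set

namespace Pool.Agent.Results.MP_0852b5_an.GainAttained

open Pool.Agent.Helper228.Gain

/-- The set of all rate differences `rate (e_n^{ran-non}(S, F)) - rate (e_n^{det-non}(S, F))` over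
all real Banach spaces `X, Y`, all bounded linear `S : X → Y` and all convex symmetric `F ⊆ X`
with a finite rate of the deterministic errors. `G` is the supremum of this set. -/
def gains : Set ℝ≥0∞ :=
  {t | ∃ (X Y : Type) (_ : NormedAddCommGroup X) (_ : NormedSpace ℝ X) (_ : CompleteSpace X)
    (_ : NormedAddCommGroup Y) (_ : NormedSpace ℝ Y) (_ : CompleteSpace Y)
    (S : X →L[ℝ] Y) (F : Set X), Convex ℝ F ∧ (∀ f ∈ F, -f ∈ F) ∧
      rate (detErr S F) < ⊤ ∧ t = rate (ranErr S F) - rate (detErr S F)}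

/-- **Main result.** There is one bounded convex symmetric set `F` in the space of the bounded
functions on `ℕ × ℕ` for which, with `S` the identity of this space, the rate of the randomized
non-adaptive errors is `1` and the rate of the deterministic non-adaptive errors is `0`: for each
`ε > 0` there is `C > 0` such that, for all `n ≥ 1`, the deterministic error is at least
`C⁻¹ n ^ (-ε)` and the randomized error is at most `C n ^ (-1 + ε)`. So the supremum `G = 1` of
the rate differences is a maximum. -/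
theorem result :
    (∃ F : Set BX, Convex ℝ F ∧ (∀ f ∈ F, -f ∈ F) ∧ (∀ f ∈ F, ‖f‖ ≤ 2) ∧
      (∀ ε : ℝ, 0 < ε → ∃ C : ℝ, 0 < C ∧ ∀ n : ℕ, 1 ≤ n →
        ENNReal.ofReal (C⁻¹ * (n:ℝ) ^ (-ε)) ≤ detErr (ContinuousLinearMap.id ℝ BX) F n ∧
        ranErr (ContinuousLinearMap.id ℝ BX) F n ≤ ENNReal.ofReal (C * (n:ℝ) ^ (-1 + ε))) ∧
      rate (detErr (ContinuousLinearMap.id ℝ BX) F) = 0 ∧
      rate (ranErr (ContinuousLinearMap.id ℝ BX) F) = 1) ∧
    IsGreatest gains 1 ∧ gain = 1 := by
  have hmem : (1 : ℝ≥0∞) ∈ gains :=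
    ⟨BX, BX, inferInstance, inferInstance, inferInstance, inferInstance, inferInstance,
      inferInstance, Pool.Agent.Y611.S.Sid, Pool.Agent.Y611.S.Fz, FS_convex _ _ _,
      FS_symm _ _ _, by rw [Pool.Agent.Y611.S.rate_det]; simp,
      by rw [Pool.Agent.Y611.S.rate_det, Pool.Agent.Y611.S.rate_ran, tsub_zero]⟩
  have hup : ∀ t ∈ gains, t ≤ 1 := fun t ht =>
    (le_sSup ht : t ≤ gain).trans Pool.Agent.H780R2.GainUpper.gain_le_one
  refine ⟨⟨Pool.Agent.Y611.S.Fz, FS_convex _ _ _, FS_symm _ _ _, ?_, ?_,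
    Pool.Agent.Y611.S.rate_det, Pool.Agent.Y611.S.rate_ran⟩, ⟨hmem, hup⟩,
    le_antisymm Pool.Agent.H780R2.GainUpper.gain_le_one (le_sSup hmem)⟩
  · intro f hf
    rw [BoundedContinuousFunction.norm_le (by norm_num)]
    rintro ⟨i, l⟩
    rw [Real.norm_eq_abs]
    refine (FS_bound (fun i => (Pool.Agent.Y611.S.sw_pos i).le) Pool.Agent.Y611.S.rr_pos
      Pool.Agent.Y611.S.rr_le_one hf i l).trans ?_
    have := Pool.Agent.Y611.S.sw_le_one i
    linarith
  · intro ε hε
    obtain ⟨c, hc, hdet⟩ := Pool.Agent.Y611.S.det_all hε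
    obtain ⟨C, hC, hran⟩ := Pool.Agent.Y611.S.ran_all (ε := min ε (1 / 2)) (by positivity)
      (lt_of_le_of_lt (min_le_right _ _) (by norm_num))
    refine ⟨max C c⁻¹, lt_max_of_lt_left hC, fun n hn => ⟨?_, ?_⟩⟩
    · refine le_trans (ENNReal.ofReal_le_ofReal ?_) (hdet n hn)
      have hn0 : (0:ℝ) < n := by exact_mod_cast hn
      gcongr
      calc (max C c⁻¹)⁻¹ ≤ (c⁻¹)⁻¹ := inv_anti₀ (by positivity) (le_max_right _ _)
        _ = c := inv_inv c
    · refine (hran n hn).trans (ENNReal.ofReal_le_ofReal ?_)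
      have hn1 : (1:ℝ) ≤ n := by exact_mod_cast hn
      gcongr
      · exact le_max_left _ _
      · exact min_le_left _ _

end Pool.Agent.Results.MP_0852b5_an.GainAttained
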